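import Pool.Agent.N408.IB.Stm

/-!
# Project IB (helper408), part SEC (helper862): volume of the central sections
-/

set_option autoImplicit false
set_option linter.all false

open Real Set MeasureTheory IB408

namespace N862.IB.SEC

theorem t (h1 : S_L1) (h2 : S_RAD) (h3 : S_VOL3) (h4 : S_ISO) : IB408.S_SEC := by
  intro h hh u hu
  obtain ⟨hcont, -, -, hclose, -⟩ := id hh
  obtain ⟨-, -, hLc, hLe, -⟩ := h1 h hcont (fun ψ => (hclose ψ).trans (by norm_num))
  have hLe' := hLe (1 / 100) (by norm_num) hclose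
  have hLnn : ∀ θ, 0 ≤ Leg h θ := by
    intro θ
    have := hLe' θ
    rw [abs_le] at this
    linarith [this.1]
  obtain ⟨L, hL⟩ := h4 u hu
  obtain ⟨x, hx⟩ : ∃ x : ℝ, x = √(1 - inner ℝ u ax ^ 2) := ⟨_, rfl⟩
  rw [← hx] at hL ⊢
  obtain ⟨R, hR⟩ : ∃ R : ℝ → ℝ, R = fun s => Leg h (arccos (x * s)) := ⟨_, rfl⟩
  have hRc : Continuous R := by
    rw [hR]
    exact hLc.comp (Real.continuous_arccos.comp (continuous_const.mul continuous_id))
  have hRn : ∀ s, 0 ≤ R s := fun s => by
    rw [hR]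
    exact hLnn _
  have hset : {v : (Submodule.span ℝ {u})ᗮ | (v : E4) ∈ Ks h} =
      L ⁻¹' {y : E3 | ‖y‖ ≤ R (y 0 / ‖y‖)} := by
    ext v
    rw [Set.mem_setOf_eq, Set.mem_preimage, Set.mem_setOf_eq]
    by_cases hv : v = 0
    · subst hv
      constructor
      · intro _
        rw [map_zero, norm_zero]
        exact hRn _
      · intro _ w _
        rw [ZeroMemClass.coe_zero, inner_zero_left]
        have := hclose (arccos (inner ℝ w ax))
        rw [abs_le] at this
        linarith [this.1]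
    · have hr : 0 < ‖v‖ := norm_pos_iff.2 hv
      have hLv : ‖L v‖ = ‖v‖ := L.norm_map v
      have hvn : ‖(v : E4)‖ = ‖v‖ := rfl
      have hw : ‖(‖v‖⁻¹ • (v : E4))‖ = 1 := by
        rw [norm_smul, norm_inv, norm_norm, hvn]
        exact inv_mul_cancel₀ hr.ne'
      have h5 := h2 h hh (‖v‖⁻¹ • (v : E4)) hw ‖v‖ hr.le
      rw [smul_smul, mul_inv_cancel₀ hr.ne', one_smul, inner_smul_left, hL v] at h5
      rw [h5, hLv, hR]
      have h6 : (starRingEnd ℝ) ‖v‖⁻¹ * (x * (L v) 0) = x * ((L v) 0 / ‖v‖) := by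
        rw [conj_trivial]
        ring
      rw [h6]
  have hvol : volume {v : (Submodule.span ℝ {u})ᗮ | (v : E4) ∈ Ks h} =
      volume {y : E3 | ‖y‖ ≤ R (y 0 / ‖y‖)} := by
    rw [hset]
    exact L.measurePreserving.measure_preimage_emb L.toHomeomorph.measurableEmbedding _
  rw [hvol, h3 R hRc hRn, ENNReal.toReal_ofReal]
  · rw [hR]
  · have : 0 ≤ ∫ s in (-1 : ℝ)..1, R s ^ 3 := by
      refine intervalIntegral.integral_nonneg (by norm_num) fun s _ => ?_
      exact pow_nonneg (hRn s) 3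
    have := Real.pi_pos
    positivity

end N862.IB.SEC
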